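import Pool.Agent.Helper14.W5.StD

/-! # Project W5 (MP_1d384c_nt): module Ex (every solution of the relations comes from a symbol) -/

set_option autoImplicit false

namespace Pool.Agent.Helper10.W5

open Pool.Agent.Helper14.CV (Homog EqC act Tl StFar StFex)
open Pool.Agent.Helper28.WK (SymP Tw evw Ok)
open Pool.Agent.Helper14.W5

private theorem cop {r : ℕ} {a : ℤ} (h : ¬ 5 ∣ a) : IsUnit ((a : ℤ) : ZMod (5 ^ r)) := by
  have h1 : IsCoprime a 5 := by
    have := (Int.prime_ofNat_iff.2 (by norm_num : Nat.Prime 5)).coprime_iff_not_dvd.2 h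
    exact this.symm
  have h2 : IsCoprime a ((5 ^ r : ℕ) : ℤ) := by
    push_cast
    exact h1.pow_right
  exact (ZMod.coe_int_isUnit_iff_isCoprime a (5 ^ r)).2 h2.symm

private theorem den {r : ℕ} {a c : ℤ} (x : ZMod (5 ^ r)) (h : ¬ 5 ∣ a) :
    IsUnit ((a : ZMod (5 ^ r)) + 5 * c * x) := by
  have : NeZero (5 ^ r) := ⟨pow_ne_zero _ (by norm_num)⟩
  have : (a : ZMod (5 ^ r)) + 5 * c * x = ((a + 5 * c * (x.val : ℤ) : ℤ) : ZMod (5 ^ r)) := by
    push_cast
    rw [ZMod.natCast_zmod_val]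
  rw [this]
  apply cop
  intro h3
  exact h ((dvd_add_left (⟨c * (x.val : ℤ), by ring⟩ : (5 : ℤ) ∣ 5 * c * (x.val : ℤ))).1 h3)

private theorem res {a b c d : ℤ} (h : a * d - 5 * (b * c) = 1) : ¬ 5 ∣ a ∧ ¬ 5 ∣ d := by
  constructor
  · rintro ⟨k, rfl⟩
    have : 5 * k * d = 5 * (k * d) := by ring
    omega
  · rintro ⟨k, rfl⟩
    have : a * (5 * k) = 5 * (a * k) := by ring
    omega

private theorem pl_det {q q' : ℕ} {a b c d : ℤ} {x : ZMod q} {y : ZMod q'}
    (h : Pl5 0 a b c d x y) : a * d - 5 * (b * c) = 1 := by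
  linear_combination h.1

private theorem pl_mk (r s : ℕ) {a b c d : ℤ} (h : a * d - 5 * (b * c) = 1) :
    ∃ (x : ZMod (5 ^ r)) (y : ZMod (5 ^ s)), Pl5 0 a b c d x y := by
  have hr := res h
  refine ⟨(b : ZMod (5 ^ r)) * (a : ZMod (5 ^ r))⁻¹, (c : ZMod (5 ^ s)) * (d : ZMod (5 ^ s))⁻¹,
    by linear_combination h, ?_, ?_⟩
  · rw [mul_assoc, ZMod.inv_mul_of_unit _ (cop hr.1), mul_one]
  · rw [mul_assoc, ZMod.inv_mul_of_unit _ (cop hr.2), mul_one]

private theorem pl_neg {q q' : ℕ} {a b c d : ℤ} {x : ZMod q} {y : ZMod q'}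
    (h : Pl5 0 a b c d x y) : Pl5 0 (-a) (-b) (-c) (-d) x y := by
  obtain ⟨h1, h2, h3⟩ := h
  refine ⟨by linear_combination h1, ?_, ?_⟩
  · push_cast
    linear_combination -h2
  · push_cast
    linear_combination -h3

private theorem pl_mul {r s : ℕ} {a b c d : ℤ} {x : ZMod (5 ^ r)} {y : ZMod (5 ^ s)}
    (h : Pl5 0 a b c d x y) {α β γ δ : ℤ} (hm : α * δ - 5 * (β * γ) = 1) :
    Pl5 0 (a * α + 5 * b * γ) (a * β + b * δ) (c * α + d * γ) (5 * c * β + d * δ)
      (((β : ZMod (5 ^ r)) + (δ : ZMod (5 ^ r)) * x) *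
        ((α : ZMod (5 ^ r)) + 5 * (γ : ZMod (5 ^ r)) * x)⁻¹)
      (((γ : ZMod (5 ^ s)) + (α : ZMod (5 ^ s)) * y) *
        ((δ : ZMod (5 ^ s)) + 5 * (β : ZMod (5 ^ s)) * y)⁻¹) := by
  obtain ⟨h1, h2, h3⟩ := h
  have hr := res hm
  have u1 := ZMod.inv_mul_of_unit _ (den (r := r) (a := α) (c := γ) x hr.1)
  have u2 := ZMod.inv_mul_of_unit _ (den (r := s) (a := δ) (c := β) y hr.2)
  refine ⟨?_, ?_, ?_⟩
  · have e : (a * α + 5 * b * γ) * (5 * c * β + d * δ) -
        5 ^ (0 + 1) * (a * β + b * δ) * (c * α + d * γ) =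
        (α * δ - 5 * (β * γ)) * (a * d - 5 ^ (0 + 1) * b * c) := by ring
    rw [e, hm, h1, one_mul]
  · push_cast
    rw [h2]
    linear_combination (-((a : ZMod (5 ^ r)) * ((β : ZMod (5 ^ r)) + δ * x))) * u1
  · push_cast
    rw [h3]
    linear_combination (-((d : ZMod (5 ^ s)) * ((γ : ZMod (5 ^ s)) + α * y))) * u2

private theorem pl_gam {r s : ℕ} {a b c d : ℤ} {x : ZMod (5 ^ r)} {y : ZMod (5 ^ s)}
    (h : Pl5 0 a b c d x y) {α β γ δ : ℤ} (hg : α * δ - (5 ^ r * β) * (5 ^ (s + 1) * γ) = 1) :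
    Pl5 0 (α * a + 5 ^ r * β * (5 * c)) (α * b + 5 ^ r * β * d)
      (5 ^ s * γ * a + δ * c) (5 ^ (s + 1) * γ * b + δ * d) x y := by
  obtain ⟨h1, h2, h3⟩ := h
  have z1 : ((5 : ℤ) ^ r : ZMod (5 ^ r)) = 0 := by
    have := ZMod.natCast_self (5 ^ r)
    push_cast at this ⊢
    exact this
  have z2 : ((5 : ℤ) ^ s : ZMod (5 ^ s)) = 0 := by
    have := ZMod.natCast_self (5 ^ s)
    push_cast at this ⊢
    exact this
  refine ⟨?_, ?_, ?_⟩
  · have e : (α * a + 5 ^ r * β * (5 * c)) * (5 ^ (s + 1) * γ * b + δ * d) -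
        5 ^ (0 + 1) * (α * b + 5 ^ r * β * d) * (5 ^ s * γ * a + δ * c) =
        (α * δ - (5 ^ r * β) * (5 ^ (s + 1) * γ)) * (a * d - 5 ^ (0 + 1) * b * c) := by
      ring
    rw [e, hg, h1, one_mul]
  · push_cast at z1 ⊢
    rw [z1, h2]
    ring
  · push_cast at z2 ⊢
    rw [pow_succ, z2, h3]
    ring

/-! ### the function on the edges -/

private noncomputable def PX (r : ℕ) (a b : ℤ) : ZMod (5 ^ r) :=
  ((b : ℤ) : ZMod (5 ^ r)) * ((a : ℤ) : ZMod (5 ^ r))⁻¹

private theorem px_eq {r : ℕ} {a b A B : ℤ} {x : ZMod (5 ^ r)} (hA : A = a) (hB : B = b)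
    (ha : ¬ 5 ∣ a) (h : (b : ZMod (5 ^ r)) = x * a) : PX r A B = x := by
  subst hA hB
  unfold PX
  rw [h, mul_assoc, ZMod.mul_inv_of_unit _ (cop ha), mul_one]

/-- the representatives `1, (1 0; 1 1), (1 0; 2 1), (1 1; 1 2)` -/
private def rho : Fin 4 → ℤ × ℤ × ℤ × ℤ :=
  ![(1, 0, 0, 1), (1, 0, 1, 1), (1, 0, 2, 1), (1, 1, 1, 2)]

section

variable {R : Type} [AddCommGroup R] {r s : ℕ} (F : Fin 2 → ZMod (5 ^ r) → ZMod (5 ^ s) → R)

private def vl (k : Fin 4) (x : ZMod (5 ^ r)) (y : ZMod (5 ^ s)) : R :=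
  ![F 0 x y, F 0 x y - tr5 1 1 0 1 (F 0) x y, F 1 x y,
    F 0 x y - tr5 1 1 0 1 (F 0) x y - F 1 x y] k

private noncomputable def E0 (a b c d : ℤ) : R :=
  if c % 5 = 0 then vl F 0 (PX r a b) (PX s d (c / 5))
  else if (c - d) % 5 = 0 then vl F 1 (PX r (a - b) b) (PX s d ((c - d) / 5))
  else if (c - 2 * d) % 5 = 0 then vl F 2 (PX r (a - 2 * b) b) (PX s d ((c - 2 * d) / 5))
  else vl F 3 (PX r (2 * a - b) (b - a)) (PX s (d - c) ((2 * c - d) / 5))

private noncomputable def EE (a b c d : ℤ) : R :=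
  if c % 5 = 0 ∨ (c - d) % 5 = 0 ∨ (c - 2 * d) % 5 = 0 ∨ (c - 3 * d) % 5 = 0 then E0 F a b c d
  else -E0 F b (-a) d (-c)

/-- `(a b; c d) = γ ρ_k` and `v` is the value. -/
private def Val (k : Fin 4) (a b c d : ℤ) (v : R) : Prop :=
  ∃ (a' b' c' d' : ℤ) (x : ZMod (5 ^ r)) (y : ZMod (5 ^ s)), Pl5 0 a' b' c' d' x y ∧
    a = a' * (rho k).1 + b' * (rho k).2.2.1 ∧ b = a' * (rho k).2.1 + b' * (rho k).2.2.2 ∧
    c = 5 * c' * (rho k).1 + d' * (rho k).2.2.1 ∧ d = 5 * c' * (rho k).2.1 + d' * (rho k).2.2.2 ∧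
    v = vl F k x y

variable {F}

private theorem val_neg {k : Fin 4} {a b c d : ℤ} {v : R} (h : Val F k a b c d v) :
    Val F k (-a) (-b) (-c) (-d) v := by
  obtain ⟨a', b', c', d', x, y, hp, rfl, rfl, rfl, rfl, rfl⟩ := h
  exact ⟨-a', -b', -c', -d', x, y, pl_neg hp, by ring, by ring, by ring, by ring, rfl⟩

private theorem val_gam {k : Fin 4} {α β γ δ : ℤ}
    (hg : α * δ - (5 ^ r * β) * (5 ^ (s + 1) * γ) = 1) {a b c d : ℤ} {v : R}
    (h : Val F k a b c d v) :
    Val F k (α * a + 5 ^ r * β * c) (α * b + 5 ^ r * β * d)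
      (5 ^ (s + 1) * γ * a + δ * c) (5 ^ (s + 1) * γ * b + δ * d) v := by
  obtain ⟨a', b', c', d', x, y, hp, rfl, rfl, rfl, rfl, rfl⟩ := h
  exact ⟨_, _, _, _, x, y, pl_gam hp hg, by ring, by ring, by ring, by ring, rfl⟩

/-- the value of `EE` for a matrix in one of the four classes -/
private theorem ev {k : Fin 4} {a b c d : ℤ} {v : R} (h : Val F k a b c d v) :
    EE F a b c d = v := by
  obtain ⟨a', b', c', d', x, y, hp, rfl, rfl, rfl, rfl, rfl⟩ := h
  have hr := res (pl_det hp)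
  obtain ⟨h1, h2, h3⟩ := hp
  have h4 := hr.2
  fin_cases k
  · simp only [rho, Fin.zero_eta, Matrix.cons_val_zero]
    unfold EE E0
    rw [if_pos (by omega), if_pos (by omega), px_eq (by ring) (by ring) hr.1 h2,
      px_eq (by ring) (by omega) hr.2 h3]
  · simp only [rho, Fin.mk_one, Matrix.cons_val_one, Matrix.cons_val_zero]
    unfold EE E0
    rw [if_pos (by omega), if_neg (by omega), if_pos (by omega),
      px_eq (by ring) (by ring) hr.1 h2, px_eq (by ring) (by omega) hr.2 h3]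
  · simp only [rho, Fin.reduceFinMk, Matrix.cons_val]
    unfold EE E0
    rw [if_pos (by omega), if_neg (by omega), if_neg (by omega), if_pos (by omega),
      px_eq (by ring) (by ring) hr.1 h2, px_eq (by ring) (by omega) hr.2 h3]
  · simp only [rho, Fin.reduceFinMk, Matrix.cons_val]
    unfold EE E0
    rw [if_pos (by omega), if_neg (by omega), if_neg (by omega), if_neg (by omega),
      px_eq (by ring) (by ring) hr.1 h2, px_eq (by ring) (by omega) hr.2 h3]

/-- `EE (g S) = - EE g` for `g` in the first two classes -/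
private theorem evS {k : Fin 4} (hk : k = 0 ∨ k = 1) {a b c d : ℤ} {v : R}
    (h : Val F k a b c d v) : EE F b (-a) d (-c) = -v := by
  have h0 := ev (val_neg h)
  obtain ⟨a', b', c', d', x, y, hp, rfl, rfl, rfl, rfl, rfl⟩ := h
  have hr := res (pl_det hp)
  have h4 := hr.2
  rcases hk with rfl | rfl
  · simp only [rho, Matrix.cons_val_zero] at h0 ⊢
    unfold EE at h0 ⊢
    rw [if_pos (by omega)] at h0
    rw [if_neg (by omega), h0]
  · simp only [rho, Matrix.cons_val_one, Matrix.cons_val_zero] at h0 ⊢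
    unfold EE at h0 ⊢
    rw [if_pos (by omega)] at h0
    rw [if_neg (by omega), h0]

/-- the relations -/
private theorem evS23 (hTrm : S5Trm) (hR : Rel5 F) {k : Fin 4} (hk : k = 2 ∨ k = 3)
    {a b c d : ℤ} {v : R} (h : Val F k a b c d v) : EE F b (-a) d (-c) = -v := by
  obtain ⟨a', b', c', d', x, y, hp, rfl, rfl, rfl, rfl, rfl⟩ := h
  rcases hk with rfl | rfl
  · have hm := pl_mul hp (α := 2) (β := -1) (γ := 1) (δ := -2) (by ring)
    have h1 : Val F 2 (a' * (rho 2).2.1 + b' * (rho 2).2.2.2)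
        (-(a' * (rho 2).1 + b' * (rho 2).2.2.1)) (5 * c' * (rho 2).2.1 + d' * (rho 2).2.2.2)
        (-(5 * c' * (rho 2).1 + d' * (rho 2).2.2.1)) _ :=
      ⟨_, _, _, _, _, _, hm, by simp [rho]; ring, by simp [rho]; ring, by simp [rho]; ring,
        by simp [rho]; ring, rfl⟩
    rw [ev h1]
    have h2 := hR.1 x y
    simp only [vl, Matrix.cons_val]
    exact (eq_neg_of_add_eq_zero_right h2)
  · have hm := pl_mul hp (α := 3) (β := -2) (γ := 1) (δ := -3) (by ring)
    have h1 : Val F 3 (a' * (rho 3).2.1 + b' * (rho 3).2.2.2)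
        (-(a' * (rho 3).1 + b' * (rho 3).2.2.1)) (5 * c' * (rho 3).2.1 + d' * (rho 3).2.2.2)
        (-(5 * c' * (rho 3).1 + d' * (rho 3).2.2.1)) _ :=
      ⟨_, _, _, _, _, _, hm, by simp [rho]; ring, by simp [rho]; ring, by simp [rho]; ring,
        by simp [rho]; ring, rfl⟩
    rw [ev h1]
    have h2 := hR.2 x y
    have ht := congrFun (congrFun ((hTrm R r s (F 0)).1 3 (-2) 1 (-3) 1 1 0 1 (by norm_num)
      (by norm_num) (by norm_num) (by norm_num)) x) y
    have e1 : tr5 (3 * 1 + 5 * (-2) * 0) (3 * 1 + (-2) * 1) (1 * 1 + (-3) * 0)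
        (5 * 1 * 1 + (-3) * 1) (F 0) x y = tr5 3 1 1 2 (F 0) x y := by norm_num
    rw [e1] at ht
    rw [← ht] at h2
    simp only [vl, Matrix.cons_val]
    exact (eq_neg_of_add_eq_zero_right h2)

private theorem cls0 : ∀ a b c d : ZMod 5, a * d - b * c = 1 →
    (c = 0 ∨ c - d = 0 ∨ c - 2 * d = 0 ∨ c - 3 * d = 0) ∨ (d = 0 ∨ c + d = 0) := by
  decide

private theorem four {a b c d : ℤ} (h : a * d - b * c = 1)
    (hc : 5 ∣ c ∨ 5 ∣ c - d ∨ 5 ∣ c - 2 * d ∨ 5 ∣ c - 3 * d) :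
    (∃ v, Val F 0 a b c d v) ∨ (∃ v, Val F 1 a b c d v) ∨ (∃ v, Val F 2 a b c d v) ∨
      ∃ v, Val F 3 a b c d v := by
  rcases hc with ⟨c', hc'⟩ | ⟨c', hc'⟩ | ⟨c', hc'⟩ | ⟨c', hc'⟩
  · left
    obtain ⟨x, y, hp⟩ := pl_mk r s (a := a) (b := b) (c := c') (d := d)
      (by subst hc'; linear_combination h)
    exact ⟨_, a, b, c', d, x, y, hp, by simp [rho], by simp [rho], by simp [rho, hc'],
      by simp [rho], rfl⟩
  · right; left
    obtain rfl : c = 5 * c' + d := by omega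
    obtain ⟨x, y, hp⟩ := pl_mk r s (a := a - b) (b := b) (c := c') (d := d)
      (by linear_combination h)
    exact ⟨_, a - b, b, c', d, x, y, hp, by simp [rho], by simp [rho], by simp [rho],
      by simp [rho], rfl⟩
  · right; right; left
    obtain rfl : c = 5 * c' + 2 * d := by omega
    obtain ⟨x, y, hp⟩ := pl_mk r s (a := a - 2 * b) (b := b) (c := c') (d := d)
      (by linear_combination h)
    exact ⟨_, a - 2 * b, b, c', d, x, y, hp, by simp [rho]; ring, by simp [rho],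
      by simp [rho]; ring, by simp [rho], rfl⟩
  · right; right; right
    obtain ⟨e, he⟩ : ∃ e, 2 * c - d = 5 * e := ⟨2 * c' + d, by omega⟩
    obtain rfl : d = 2 * c - 5 * e := by omega
    obtain ⟨x, y, hp⟩ := pl_mk r s (a := 2 * a - b) (b := b - a) (c := e)
      (d := 2 * c - 5 * e - c) (by linear_combination h)
    exact ⟨_, 2 * a - b, b - a, e, 2 * c - 5 * e - c, x, y, hp, by simp [rho]; ring,
      by simp [rho]; ring, by simp [rho]; ring, by simp [rho]; ring, rfl⟩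

private theorem e5d : ∀ z : ℤ, ((z : ℤ) : ZMod 5) = 0 → (5 : ℤ) ∣ z := fun z hz =>
  (ZMod.intCast_zmod_eq_zero_iff_dvd z 5).1 hz

private theorem cls {a b c d : ℤ} (h : a * d - b * c = 1) :
    ((∃ v, Val F 0 a b c d v) ∨ (∃ v, Val F 1 a b c d v) ∨ (∃ v, Val F 2 a b c d v) ∨
      ∃ v, Val F 3 a b c d v) ∨
    ((∃ v, Val F 0 b (-a) d (-c) v) ∨ (∃ v, Val F 1 b (-a) d (-c) v)) := by
  have h1 := cls0 a b c d (by exact_mod_cast congrArg (fun z : ℤ => (z : ZMod 5)) h)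
  rcases h1 with (p | p | p | p) | (p | p)
  · exact Or.inl (four h (Or.inl (e5d _ p)))
  · exact Or.inl (four h (Or.inr (Or.inl (e5d _ (by push_cast; exact p)))))
  · exact Or.inl (four h (Or.inr (Or.inr (Or.inl (e5d _ (by push_cast; exact p))))))
  · exact Or.inl (four h (Or.inr (Or.inr (Or.inr (e5d _ (by push_cast; exact p))))))
  · right; left
    obtain ⟨d', rfl⟩ := e5d _ p
    obtain ⟨x, y, hp⟩ := pl_mk r s (a := b) (b := -a) (c := d') (d := -c)
      (by linear_combination h)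
    exact ⟨_, b, -a, d', -c, x, y, hp, by simp [rho], by simp [rho], by simp [rho],
      by simp [rho], rfl⟩
  · right; right
    obtain ⟨e, he⟩ := e5d (c + d) (by push_cast; exact p)
    obtain rfl : d = 5 * e - c := by omega
    obtain ⟨x, y, hp⟩ := pl_mk r s (a := b + a) (b := -a) (c := e) (d := -c)
      (by linear_combination h)
    exact ⟨_, b + a, -a, e, -c, x, y, hp, by simp [rho], by simp [rho], by simp [rho]; ring,
      by simp [rho], rfl⟩

/-- `Val` of the matrix times `S`, other direction -/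
private theorem evS' {k : Fin 4} (hk : k = 0 ∨ k = 1) {a b c d : ℤ} {v : R}
    (h : Val F k b (-a) d (-c) v) : EE F a b c d = -v := by
  have h1 := evS hk (val_neg h)
  simp only [neg_neg] at h1
  exact h1

private theorem ee_S (hTrm : S5Trm) (hR : Rel5 F) {a b c d : ℤ} (h : a * d - b * c = 1) :
    EE F b (-a) d (-c) = -EE F a b c d := by
  rcases cls (F := F) h with (⟨v, hv⟩ | ⟨v, hv⟩ | ⟨v, hv⟩ | ⟨v, hv⟩) | (⟨v, hv⟩ | ⟨v, hv⟩)
  · rw [ev hv, evS (Or.inl rfl) hv]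
  · rw [ev hv, evS (Or.inr rfl) hv]
  · rw [ev hv, evS23 hTrm hR (Or.inl rfl) hv]
  · rw [ev hv, evS23 hTrm hR (Or.inr rfl) hv]
  · rw [ev hv, evS' (Or.inl rfl) hv, neg_neg]
  · rw [ev hv, evS' (Or.inr rfl) hv, neg_neg]

private theorem ee_neg {a b c d : ℤ} (h : a * d - b * c = 1) :
    EE F (-a) (-b) (-c) (-d) = EE F a b c d := by
  rcases cls (F := F) h with (⟨v, hv⟩ | ⟨v, hv⟩ | ⟨v, hv⟩ | ⟨v, hv⟩) | (⟨v, hv⟩ | ⟨v, hv⟩)
  · rw [ev hv, ev (val_neg hv)]
  · rw [ev hv, ev (val_neg hv)]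
  · rw [ev hv, ev (val_neg hv)]
  · rw [ev hv, ev (val_neg hv)]
  · rw [evS' (Or.inl rfl) hv]
    exact evS' (Or.inl rfl) (val_neg hv)
  · rw [evS' (Or.inr rfl) hv]
    exact evS' (Or.inr rfl) (val_neg hv)

private theorem ee_gam {α β γ δ : ℤ}
    (hg : α * δ - (5 ^ r * β) * (5 ^ (s + 1) * γ) = 1) {a b c d : ℤ}
    (h : a * d - b * c = 1) :
    EE F (α * a + 5 ^ r * β * c) (α * b + 5 ^ r * β * d)
      (5 ^ (s + 1) * γ * a + δ * c) (5 ^ (s + 1) * γ * b + δ * d) = EE F a b c d := by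
  rcases cls (F := F) h with (⟨v, hv⟩ | ⟨v, hv⟩ | ⟨v, hv⟩ | ⟨v, hv⟩) | (⟨v, hv⟩ | ⟨v, hv⟩)
  · rw [ev hv, ev (val_gam hg hv)]
  · rw [ev hv, ev (val_gam hg hv)]
  · rw [ev hv, ev (val_gam hg hv)]
  · rw [ev hv, ev (val_gam hg hv)]
  · rw [evS' (Or.inl rfl) hv]
    apply evS' (Or.inl rfl)
    have := val_gam hg hv
    convert this using 1 <;> ring
  · rw [evS' (Or.inr rfl) hv]
    apply evS' (Or.inr rfl)
    have := val_gam hg hv
    convert this using 1 <;> ring

private def Tri (F : Fin 2 → ZMod (5 ^ r) → ZMod (5 ^ s) → R) (a b c d : ℤ) : Prop :=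
  EE F a b c d = EE F a (a + b) c (c + d) + EE F (a + b) b (c + d) d

private theorem tri_rot (hTrm : S5Trm) (hR : Rel5 F) {a b c d : ℤ} (h : a * d - b * c = 1)
    (ht : Tri F (a + b) (-a) (c + d) (-c)) : Tri F a b c d := by
  unfold Tri at ht ⊢
  have e1 : a + b + -a = b := by ring
  have e2 : c + d + -c = d := by ring
  rw [e1, e2, ee_S hTrm hR h, ee_S hTrm hR (a := a) (b := a + b) (c := c) (d := c + d)
    (by linear_combination h)] at ht
  rw [eq_add_neg_iff_add_eq] at ht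
  rw [← ht]
  abel

/-- the value for `γ ρ_k`, flexible form -/
private theorem evk (k : Fin 4) {a b c d a' b' c' d' : ℤ} {x : ZMod (5 ^ r)} {y : ZMod (5 ^ s)}
    (hp : Pl5 0 a' b' c' d' x y)
    (ha : a = a' * (rho k).1 + b' * (rho k).2.2.1)
    (hb : b = a' * (rho k).2.1 + b' * (rho k).2.2.2)
    (hc : c = 5 * c' * (rho k).1 + d' * (rho k).2.2.1)
    (hd : d = 5 * c' * (rho k).2.1 + d' * (rho k).2.2.2) : EE F a b c d = vl F k x y :=
  ev (k := k) ⟨a', b', c', d', x, y, hp, ha, hb, hc, hd, rfl⟩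

/-- first class -/
private theorem tri_1 {a b c d : ℤ} (h : a * d - 5 * (b * c) = 1) :
    Tri F a b (5 * c) d := by
  obtain ⟨x, y, hp⟩ := pl_mk r s h
  have hm := pl_mul hp (α := 1) (β := 1) (γ := 0) (δ := 1) (by ring)
  unfold Tri
  rw [evk 0 hp (by simp [rho]) (by simp [rho]) (by simp [rho]) (by simp [rho]),
    evk 0 hm (by simp [rho]) (by simp [rho]) (by simp [rho]) (by simp [rho]),
    evk 1 hp (by simp [rho]) (by simp [rho]) (by simp [rho]) (by simp [rho])]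
  simp only [vl, Matrix.cons_val]
  unfold tr5
  abel

/-- second class -/
private theorem tri_2 {a b c d : ℤ} (h : a * d - 5 * (b * c) = 1) :
    Tri F (a + b) b (5 * c + d) d := by
  obtain ⟨x, y, hp⟩ := pl_mk r s h
  unfold Tri
  rw [evk 1 hp (by simp [rho]) (by simp [rho]) (by simp [rho]) (by simp [rho]),
    evk 3 hp (by simp [rho]) (by simp [rho]; ring) (by simp [rho]) (by simp [rho]; ring),
    evk 2 hp (by simp [rho]; ring) (by simp [rho]) (by simp [rho]; ring) (by simp [rho])]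
  simp only [vl, Matrix.cons_val]
  abel

private theorem cls1 : ∀ c d : ZMod 5, (c = 0 ∧ d = 0) ∨ c = 0 ∨ d = 0 ∨ c + d = 0 ∨
    c - d = 0 ∨ c - 2 * d = 0 ∨ c - 3 * d = 0 := by
  decide

private theorem tri_all (hTrm : S5Trm) (hR : Rel5 F) {a b c d : ℤ} (h : a * d - b * c = 1) :
    Tri F a b c d := by
  have key : ∀ {a b c d : ℤ}, a * d - b * c = 1 → 5 ∣ c → Tri F a b c d := by
    intro a b c d h hc
    obtain ⟨c', rfl⟩ := hc
    exact tri_1 (by linear_combination h)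
  have key2 : ∀ {a b c d : ℤ}, a * d - b * c = 1 → 5 ∣ c - d → Tri F a b c d := by
    intro a b c d h hc
    obtain ⟨c', hc'⟩ := hc
    obtain rfl : c = 5 * c' + d := by omega
    have := tri_2 (F := F) (a := a - b) (b := b) (c := c') (d := d) (by linear_combination h)
    rw [sub_add_cancel] at this
    exact this
  rcases cls1 c d with ⟨p, -⟩ | p | p | p | p | p | p
  · exact key h (e5d _ p)
  · exact key h (e5d _ p)
  · exact tri_rot hTrm hR h (tri_rot hTrm hR (by linear_combination h)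
      (key (by linear_combination h) (by have := e5d _ p; omega)))
  · exact tri_rot hTrm hR h (key (by linear_combination h) (e5d _ (by push_cast; exact p)))
  · exact key2 h (e5d _ (by push_cast; exact p))
  · -- c = 2d : one rotation gives (3d : -2d), class 1
    have h5 := e5d (c - 2 * d) (by push_cast; exact p)
    exact tri_rot hTrm hR h (key2 (by linear_combination h) (by omega))
  · -- c = 3d : two rotations
    have h5 := e5d (c - 3 * d) (by push_cast; exact p)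
    exact tri_rot hTrm hR h (tri_rot hTrm hR (by linear_combination h)
      (key2 (by linear_combination h) (by omega)))

end

/-- Module Ex. -/
theorem hEx (hm : S5Trm) (ha : S5PlA) (_he : S5Edg) (hfex : Pool.Agent.Helper14.CV.StFex)
    (hfar : StFar) : S5Ex := by
  intro R _ r s F hR
  obtain ⟨G, hGh, hG⟩ := hfex R inferInstance (EE F) (fun a b c d h =>
    ⟨ee_neg h, ee_S hm hR h, tri_all hm hR h⟩)
  refine ⟨G, ⟨hGh, ?_⟩, ?_⟩
  · intro α β' γ' δ hdet hβ hγ
    obtain ⟨β, rfl⟩ := hβ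
    obtain ⟨γ, rfl⟩ := hγ
    have hdet' : α * δ - 5 ^ r * β * (5 ^ (s + 1) * γ) = 1 := by exact_mod_cast hdet
    have hdet0 : α * δ - 5 ^ r * β * (5 ^ (s + 1) * γ) ≠ 0 := by
      rw [hdet']
      exact one_ne_zero
    have hH : Homog (act α (5 ^ r * β) (5 ^ (s + 1) * γ) δ G - G) := by
      rw [sub_eq_add_neg]
      exact (hGh.act hdet0).add hGh.neg
    obtain ⟨k, hk⟩ := hfar R inferInstance _ hH (by
      intro a b c d h
      have h1 := hG a b c d h
      have h2 := hG (α * a + 5 ^ r * β * c) (α * b + 5 ^ r * β * d)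
        (5 ^ (s + 1) * γ * a + δ * c) (5 ^ (s + 1) * γ * b + δ * d)
        (by linear_combination (a * d - b * c) * hdet' + h)
      rw [ee_gam hdet' h, ← h1] at h2
      show G (α * a + 5 ^ r * β * c) (5 ^ (s + 1) * γ * a + δ * c) - G a c =
        G (α * b + 5 ^ r * β * d) (5 ^ (s + 1) * γ * b + δ * d) - G b d
      have h3 := sub_eq_iff_eq_add.1 h2
      rw [h3]
      abel)
    refine ⟨k, fun p q hpq => ?_⟩
    have h4 := hk p q hpq
    have h5 : act α (5 ^ r * β) (5 ^ (s + 1) * γ) δ G p q - G p q = k := by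
      have h6 : (0 : ℤ → ℤ → R) p q = 0 := rfl
      rw [h6, zero_add] at h4
      exact h4
    have h7 := (sub_eq_iff_eq_add.1 h5).trans (add_comm _ _)
    exact_mod_cast h7
  · intro i
    funext x y
    have hp := ha 0 r s x y
    have hd := pl_det hp
    have e : ∀ (k : Fin 4) (u1 u2 v1 v2 : ℤ), rho k = (u1, v1, u2, v2) → u1 * v2 - u2 * v1 = 1 →
        edge5 0 u1 u2 v1 v2 G x y = vl F k x y := by
      intro k u1 u2 v1 v2 hk hdet
      rw [← evk (F := F) k hp rfl rfl rfl rfl, hk]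
      rw [← hG _ _ _ _ ?_]
      · unfold edge5
        congr 1
        · congr 1 <;> ring
        · congr 1 <;> ring
      · simp only
        linear_combination (u1 * v2 - u2 * v1) * hd + hdet
    fin_cases i
    · exact e 0 1 0 0 1 rfl (by norm_num)
    · exact e 2 1 2 0 1 rfl (by norm_num)

end Pool.Agent.Helper10.W5
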