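import Pool.Agent.Helper14.W5.StC

/-! # Project W5 (MP_1d384c_nt): module PlU (matrices with the same plane coordinates) -/

set_option autoImplicit false

namespace Pool.Agent.Helper10.W5


open Pool.Agent.Helper14.W5

private lemma dv (r : ℕ) (z : ZMod (5 ^ r)) (a b a' b' : ℤ) (h : (b : ZMod (5 ^ r)) = z * a)
    (h' : (b' : ZMod (5 ^ r)) = z * a') : (5 : ℤ) ^ r ∣ a * b' - a' * b := by
  have h1 : ((a * b' - a' * b : ℤ) : ZMod (5 ^ r)) = 0 := by
    push_cast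
    rw [h, h']
    ring
  have h2 := (ZMod.intCast_zmod_eq_zero_iff_dvd (a * b' - a' * b) (5 ^ r)).1 h1
  push_cast at h2
  exact h2

/-- Module PlU. -/
theorem hPlU : S5PlU := by
  intro μ r s x y a b c d a' b' c' d' ⟨h1, h2, h3⟩ ⟨h1', h2', h3'⟩
  refine ⟨a' * d - 5 ^ (μ + 1) * b' * c, 5 ^ μ * (a * b' - a' * b), 5 * (d * c' - d' * c),
    a * d' - 5 ^ (μ + 1) * b * c', ?_, ?_, ?_, ?_, ?_, ?_, ?_⟩
  · rw [pow_succ] at h1 h1' ⊢
    linear_combination (a' * d' - 5 ^ μ * 5 * b' * c') * h1 + h1'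
  · rw [pow_add, mul_comm ((5 : ℤ) ^ r)]
    exact mul_dvd_mul_left _ (dv r x a b a' b' h2 h2')
  · rw [pow_succ, mul_comm ((5 : ℤ) ^ s)]
    exact mul_dvd_mul_left _ (dv s y d c d' c' h3 h3')
  · rw [pow_succ] at h1 h1' ⊢
    linear_combination (-a') * h1
  · rw [pow_succ] at h1 h1' ⊢
    linear_combination (-(5 ^ μ * b')) * h1
  · rw [pow_succ] at h1 h1' ⊢
    linear_combination (-(5 * c')) * h1
  · rw [pow_succ] at h1 h1' ⊢
    linear_combination (-d') * h1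

end Pool.Agent.Helper10.W5
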